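import Pool.Agent.H68.SF.LT3

/-! LCD: codes exist in models of `ZFC⁻`. -/

open Ordinal Cardinal Order Set
open scoped ZFSet

namespace SF

/-- transitive closure -/
private noncomputable def lcdtc (x : V) : V :=
  x ∪ (⋃₀ (ZFSet.range fun y : {y // y ∈ x} => lcdtc y.1) : ZFSet)
termination_by x.rank
decreasing_by exact ZFSet.rank_lt_of_mem y.2

private theorem lcdtc_eq (x : V) : lcdtc x = x ∪ (⋃₀ (imS x lcdtc) : ZFSet) := by
  rw [lcdtc]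
  rfl

private theorem mem_lcdtc {x z : V} : z ∈ lcdtc x ↔ z ∈ x ∨ ∃ y ∈ x, z ∈ lcdtc y := by
  rw [lcdtc_eq, ZFSet.mem_union, ZFSet.mem_sUnion]
  simp only [mem_imS]
  constructor
  · rintro (h | ⟨_, ⟨y, hy, rfl⟩, h⟩)
    · exact Or.inl h
    · exact Or.inr ⟨y, hy, h⟩
  · rintro (h | ⟨y, hy, h⟩)
    · exact Or.inl h
    · exact Or.inr ⟨_, ⟨y, hy, rfl⟩, h⟩

private theorem lcdtc_trans (x : V) : (lcdtc x).IsTransitive := by
  induction x using ZFSet.inductionOn with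
  | _ x ih =>
    intro z hz w hw
    rcases mem_lcdtc.1 hz with h | ⟨y, hy, h⟩
    · exact mem_lcdtc.2 (Or.inr ⟨z, h, mem_lcdtc.2 (Or.inl hw)⟩)
    · exact mem_lcdtc.2 (Or.inr ⟨y, hy, ih y hy z h hw⟩)

private theorem tm_lcdtc : Tm ZFm (fun _ v => lcdtc (v 0)) := by
  refine tm_recu (ext := fun _ v => v 0)
    (Φ := fun _ u => u 1 ∪ (⋃₀ (imS (u 1) fun y => app (u 0) y) : ZFSet))
    ZFSet.rank (Tm.var 0) ?_ ?_ ?_
  · exact Tm.union (Tm.var 1)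
      (Tm.iUn (g := fun _ u => app (u 1) (u 0)) (Tm.var 1) (Tm.app (Tm.var 1) (Tm.var 0)))
  · intro M k v hv y hy
    exact ZFSet.rank_lt_of_mem hy
  · intro M k v hv
    show lcdtc (v 0) = v 0 ∪ (⋃₀ (imS (v 0) fun y => app (resS (v 0) fun y => lcdtc y) y) : ZFSet)
    rw [lcdtc_eq]
    congr 2
    ext z
    simp only [mem_imS]
    refine exists_congr fun y => and_congr_right fun hy => ?_
    rw [app_resS hy]

theorem pf_LCD (hRKT : T_RKT) (hLDC : T_LDC) : T_LCD := by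
  intro M k p hp
  obtain ⟨hdec, -⟩ := hLDC
  have k0 : ZFm M := k.toZFm
  -- a transitive set with the element `p`
  obtain ⟨T, hT, hTt, hpT⟩ : ∃ T, M T ∧ T.IsTransitive ∧ p ∈ T := by
    have h1 : M ({p} : V) := by
      have := k0.pair p p hp hp
      rwa [ZFSet.pair_eq_singleton] at this
    exact ⟨lcdtc {p}, tm_lcdtc.1 M k0 (fun _ => {p}) (fun _ => h1), lcdtc_trans _,
      mem_lcdtc.2 (Or.inl (ZFSet.mem_singleton.2 rfl))⟩
  obtain ⟨α, f, hf, hfo⟩ := k.wo T hT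
  have hα : M α.toZFSet := by
    have h1 : dm f = α.toZFSet := by
      ext x
      rw [mem_dm]
      constructor
      · rintro ⟨y, hy⟩
        exact (ZFSet.pair_mem_prod.1 (hfo.1.1 hy)).1
      · intro hx
        obtain ⟨y, hy, -⟩ := hfo.1.2 x hx
        exact ⟨y, hy⟩
    rw [← h1]
    exact (Tm.dm (Tm.var 0)).1 M k0 (fun _ => f) (fun _ => hf)
  have hR : M T.rank.toZFSet := hRKT.1 M k0 (fun _ => T) (fun _ => hT)
  -- the code
  obtain ⟨D, hD, hDe⟩ : ∃ D, M D ∧ D = ZFSet.prod T.rank.toZFSet α.toZFSet :=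
    ⟨_, (Tm.prod (Tm.var 0) (Tm.var 1)).1 M k0 (cons T.rank.toZFSet fun _ => α.toZFSet)
      (In.cons (fun _ => hα) hR), rfl⟩
  obtain ⟨A, hA, hAe⟩ : ∃ A, M A ∧ A = (ZFSet.prod D D).sep fun q =>
      fst (fst q) = (app f (snd (fst q))).rank.toZFSet ∧
      fst (snd q) = (app f (snd (snd q))).rank.toZFSet ∧
      app f (snd (fst q)) ∈ app f (snd (snd q)) := by
    have t1 : Tm ZFm (fun _ u => app (u 1) (snd (fst (u 0)))) :=
      Tm.app (Tm.var 1) (Tm.snd (Tm.fst (Tm.var 0)))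
    have t2 : Tm ZFm (fun _ u => app (u 1) (snd (snd (u 0)))) :=
      Tm.app (Tm.var 1) (Tm.snd (Tm.snd (Tm.var 0)))
    have r1 : Tm ZFm (fun _ u => (app (u 1) (snd (fst (u 0)))).rank.toZFSet) :=
      Tm.at1 (F := fun _ x => x.rank.toZFSet) hRKT t1
    have r2 : Tm ZFm (fun _ u => (app (u 1) (snd (snd (u 0)))).rank.toZFSet) :=
      Tm.at1 (F := fun _ x => x.rank.toZFSet) hRKT t2
    have h1 := Tm.sep (R := fun _ u => fst (fst (u 0)) = (app (u 1) (snd (fst (u 0)))).rank.toZFSet ∧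
      fst (snd (u 0)) = (app (u 1) (snd (snd (u 0)))).rank.toZFSet ∧
      app (u 1) (snd (fst (u 0))) ∈ app (u 1) (snd (snd (u 0))))
      ((Dfb.eq (Tm.fst (Tm.fst (Tm.var 0))) r1).and
        ((Dfb.eq (Tm.fst (Tm.snd (Tm.var 0))) r2).and (Dfb.mem t1 t2)))
      (Tm.prod (Tm.var 1) (Tm.var 1))
    exact ⟨_, h1.1 M k0 (cons f fun _ => D) (In.cons (fun _ => hD) hf), rfl⟩
  have hval : ∀ ξ < α, app f ξ.toZFSet ∈ T := fun ξ hξ =>
    app_mem hfo.1 (Ordinal.toZFSet_mem_toZFSet_iff.2 hξ)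
  -- elements of the code
  have hmem : ∀ i, i ∈ D → ∃ ρ ξ : Ordinal.{0}, ρ < T.rank ∧ ξ < α ∧
      i = ZFSet.pair ρ.toZFSet ξ.toZFSet := by
    intro i hi
    rw [hDe] at hi
    obtain ⟨a, ha, b, hb, rfl⟩ := ZFSet.mem_prod.1 hi
    obtain ⟨ρ, hρ, rfl⟩ := Ordinal.mem_toZFSet_iff.1 ha
    obtain ⟨ξ, hξ, rfl⟩ := Ordinal.mem_toZFSet_iff.1 hb
    exact ⟨ρ, ξ, hρ, hξ, rfl⟩
  have hpA : ∀ i j, ZFSet.pair j i ∈ A ↔ ∃ ξ' ξ : Ordinal.{0}, ξ' < α ∧ ξ < α ∧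
      j = ZFSet.pair (app f ξ'.toZFSet).rank.toZFSet ξ'.toZFSet ∧
      i = ZFSet.pair (app f ξ.toZFSet).rank.toZFSet ξ.toZFSet ∧
      app f ξ'.toZFSet ∈ app f ξ.toZFSet := by
    intro i j
    rw [hAe, ZFSet.mem_sep, ZFSet.pair_mem_prod, fst_pair, snd_pair]
    constructor
    · rintro ⟨⟨hj, hi⟩, h1, h2, h3⟩
      obtain ⟨ρ', ξ', -, hξ', rfl⟩ := hmem j hj
      obtain ⟨ρ, ξ, -, hξ, rfl⟩ := hmem i hi
      rw [fst_pair, snd_pair] at h1 h2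
      rw [snd_pair, snd_pair] at h3
      exact ⟨ξ', ξ, hξ', hξ, by rw [← h1], by rw [← h2], h3⟩
    · rintro ⟨ξ', ξ, hξ', hξ, rfl, rfl, h3⟩
      rw [fst_pair, snd_pair, fst_pair, snd_pair]
      refine ⟨⟨?_, ?_⟩, rfl, rfl, h3⟩
      · rw [hDe, ZFSet.pair_mem_prod]
        exact ⟨Ordinal.toZFSet_mem_toZFSet_iff.2 (ZFSet.rank_lt_of_mem (hval ξ' hξ')),
          Ordinal.toZFSet_mem_toZFSet_iff.2 hξ'⟩
      · rw [hDe, ZFSet.pair_mem_prod]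
        exact ⟨Ordinal.toZFSet_mem_toZFSet_iff.2 (ZFSet.rank_lt_of_mem (hval ξ hξ)),
          Ordinal.toZFSet_mem_toZFSet_iff.2 hξ⟩
  have hcode : IsCode A := by
    intro q hq
    have h1 : q ∈ ZFSet.prod D D := by
      rw [hAe] at hq
      exact (ZFSet.mem_sep.1 hq).1
    obtain ⟨j, hj, i, hi, rfl⟩ := ZFSet.mem_prod.1 h1
    obtain ⟨ρ', ξ', -, -, rfl⟩ := hmem j hj
    obtain ⟨ρ, ξ, -, -, rfl⟩ := hmem i hi
    exact ⟨ρ', ξ', ρ, ξ, rfl⟩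
  have hclaim : ∀ o : Ordinal.{0}, ∀ ξ < α, (app f ξ.toZFSet).rank = o →
      dec A (ZFSet.pair (app f ξ.toZFSet).rank.toZFSet ξ.toZFSet) = app f ξ.toZFSet := by
    intro o
    induction o using WellFoundedLT.induction with
    | ind o ih =>
      intro ξ hξ ho
      ext y
      rw [hdec]
      constructor
      · rintro ⟨j, h1, -, rfl⟩
        obtain ⟨ξ', ξ₁, hξ', hξ₁, rfl, h2, h3⟩ := (hpA _ _).1 h1
        have h4 : ξ₁ = ξ := (Ordinal.toZFSet_injective (ZFSet.pair_injective h2).2).symm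
        subst h4
        rw [ih _ (ho ▸ ZFSet.rank_lt_of_mem h3) ξ' hξ' rfl]
        exact h3
      · intro hy
        have hyT : y ∈ T := hTt _ (hval ξ hξ) hy
        obtain ⟨a, ha, hay⟩ := hfo.2 y hyT
        obtain ⟨ξ', hξ', rfl⟩ := Ordinal.mem_toZFSet_iff.1 ha
        have hye : app f ξ'.toZFSet = y := app_eq (svl_of_isFunc hfo.1) hay
        refine ⟨ZFSet.pair (app f ξ'.toZFSet).rank.toZFSet ξ'.toZFSet,
          (hpA _ _).2 ⟨ξ', ξ, hξ', hξ, rfl, rfl, by rw [hye]; exact hy⟩, ?_, ?_⟩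
        · rw [fst_pair, fst_pair, hye]
          exact Ordinal.toZFSet_mem_toZFSet_iff.2 (ZFSet.rank_lt_of_mem hy)
        · rw [ih _ (by rw [← ho, hye]; exact ZFSet.rank_lt_of_mem hy) ξ' hξ' rfl, hye]
  obtain ⟨a, ha, hap⟩ := hfo.2 p hpT
  obtain ⟨ξ, hξ, rfl⟩ := Ordinal.mem_toZFSet_iff.1 ha
  have hpe : app f ξ.toZFSet = p := app_eq (svl_of_isFunc hfo.1) hap
  refine ⟨A, (app f ξ.toZFSet).rank, ξ, hcode, hA, ?_, k0.trans _ hα _ ha, ?_⟩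
  · rw [hpe]
    exact hRKT.1 M k0 (fun _ => p) (fun _ => hp)
  · rw [hclaim _ ξ hξ rfl, hpe]

end SF
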