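import Pool.Agent.H68.SF.LT3

/-! LFN: `L_κ[A]` is full (except for countability), `A ∈ L_κ[A]`, `κ` regular. -/

open Ordinal Cardinal Order Set
open scoped ZFSet

namespace SF

/-- a level with an enumeration of its first level is a model of choice -/
private theorem lfn_zfc (hLEN : T_LEN) (hLEO : T_LEO) {κ : Cardinal.{0}} (hκ : κ.IsRegular)
    {a A g : V} (ha : a.IsTransitive) (hZ : ZFm (· ∈ Lh a A κ.ord)) (haM : a ∈ Lh a A κ.ord)
    (hAM : A ∈ Lh a A κ.ord) (hgM : g ∈ Lh a A κ.ord) (hg : Enm g a) :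
    ZFCm (· ∈ Lh a A κ.ord) := by
  refine ⟨hZ, fun x hx => ?_⟩
  refine (hLEO _ hZ x hx).1 ?_
  obtain ⟨α, hα, hxα⟩ := (mem_Lh_limit (isSuccLimit_ord hκ.aleph0_le)).1 hx
  obtain ⟨g', hg'M, hg'⟩ := hLEN _ hZ a A g haM hAM hgM ha hg α (ord_mem_Lh ha hα)
  refine ⟨g'.sep fun q => snd q ∈ x, ?_, ?_, ?_, ?_⟩
  · have h1 := (Tm.sep (R := fun _ u => snd (u 0) ∈ u 1)
      (Dfb.mem (Tm.snd (Tm.var 0)) (Tm.var 1)) (Tm.var 1)).1 _ hZ
      (cons x fun _ => g') (In.cons (M := (· ∈ Lh a A κ.ord)) (fun _ => hg'M) hx)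
    exact h1
  · intro q hq
    obtain ⟨h1, h2⟩ := ZFSet.mem_sep.1 hq
    obtain ⟨ξ, y, -, rfl⟩ := hg'.pr q h1
    rw [snd_pair] at h2
    exact ⟨ξ, y, h2, rfl⟩
  · intro u y z hy hz
    exact hg'.svl u y z (ZFSet.mem_sep.1 hy).1 (ZFSet.mem_sep.1 hz).1
  · intro y hy
    obtain ⟨ξ, hξ⟩ := hg'.onto y (Lh_isTransitive ha α x hxα hy)
    exact ⟨ξ, ZFSet.mem_sep.2 ⟨hξ, by rw [snd_pair]; exact hy⟩⟩

private theorem lfn_empty : Enm ∅ ∅ :=
  ⟨fun q hq => absurd hq (ZFSet.notMem_empty q), fun _ _ _ h => absurd h (ZFSet.notMem_empty _),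
    fun y hy => absurd hy (ZFSet.notMem_empty y)⟩

private theorem lfn_tr0 : (∅ : V).IsTransitive := fun x hx => absurd hx (ZFSet.notMem_empty x)

private theorem lfn_dm {f x : V} {β : Ordinal.{0}} (h : ZFSet.IsFunc β.toZFSet x f) :
    dm f = β.toZFSet := by
  ext u
  rw [mem_dm]
  constructor
  · rintro ⟨y, hy⟩
    exact (ZFSet.pair_mem_prod.1 (h.1 hy)).1
  · intro hu
    obtain ⟨y, hy, -⟩ := h.2 u hu
    exact ⟨y, hy⟩

theorem pf_LFN (hLCA : T_LCA) (hLZF : T_LZF) (hLEN : T_LEN) (hLEO : T_LEO) (hLBS : T_LBS) :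
    T_LFN := by
  intro κ hκ hκ0 A hA
  have hLBS' := hLBS κ hκ hκ0 A hA
  have hlim : IsSuccLimit κ.ord := isSuccLimit_ord hκ.aleph0_le
  obtain ⟨N, hN⟩ : ∃ N, N = LA A κ.ord := ⟨_, rfl⟩
  rw [← hN] at hA hLBS' ⊢
  have hNL : Lh ∅ A κ.ord = N := hN.symm
  have hNt : N.IsTransitive := hNL ▸ Lh_isTransitive lfn_tr0 κ.ord
  have hNZ : ZFm (· ∈ N) := by
    have h1 := hLZF κ hκ hκ0 ∅ A lfn_tr0 (by rw [ZFSet.card_empty]; exact hκ.pos)
    rwa [hNL] at h1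
  have hNC : ZFCm (· ∈ N) := by
    have h1 := lfn_zfc hLEN hLEO hκ (a := ∅) (A := A) (g := ∅) lfn_tr0 (by rwa [hNL])
      (by rw [hNL]; exact hNZ.mempty) (by rwa [hNL]) (by rw [hNL]; exact hNZ.mempty) lfn_empty
    rwa [hNL] at h1
  -- the cardinal
  have hNc : ℵ₀ ≤ N.card := by
    have h1 : κ.ord.toZFSet.card ≤ N.card := ZFSet.card_mono (hNL ▸ (ord_sub_Lh lfn_tr0 κ.ord).1)
    rw [Ordinal.card_toZFSet, card_ord] at h1
    exact hκ.aleph0_le.trans h1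
  obtain ⟨μ, hμ⟩ : ∃ μ, μ = succ N.card := ⟨_, rfl⟩
  rw [← hμ] at hLBS' ⊢
  have hμr : μ.IsRegular := hμ ▸ isRegular_succ hNc
  have hμ0 : ℵ₀ < μ := hμ ▸ lt_of_le_of_lt hNc (lt_succ _)
  have hκμ : κ < μ := by
    have h1 : κ.ord.toZFSet.card ≤ N.card := ZFSet.card_mono (hNL ▸ (ord_sub_Lh lfn_tr0 κ.ord).1)
    rw [Ordinal.card_toZFSet, card_ord] at h1
    rw [hμ]
    exact lt_of_le_of_lt h1 (lt_succ _)
  have hit : (insert N N : V).IsTransitive := by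
    intro x hx y hy
    rw [ZFSet.mem_insert_iff] at hx ⊢
    right
    rcases hx with rfl | hx
    · exact hy
    · exact hNt x hx hy
  have hMZ : ZFm (· ∈ LN N μ.ord) := hLZF μ hμr hμ0 (insert N N) ∅ hit (by
    refine lt_of_le_of_lt ZFSet.card_insert_le ?_
    rw [Cardinal.add_one_eq hNc, hμ]
    exact lt_succ _)
  have hmlim : IsSuccLimit μ.ord := isSuccLimit_ord hμr.aleph0_le
  have hiM : (insert N N : V) ∈ LN N μ.ord := by
    have h1 : Lh (insert N N) ∅ 0 ∈ Lh (insert N N) ∅ μ.ord := Lh_mem hmlim.bot_lt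
    rwa [Lh_zero] at h1
  have hNM : N ∈ LN N μ.ord := sub_Lh (ZFSet.mem_insert_iff.2 (Or.inl rfl))
  have hAM : A ∈ LN N μ.ord := sub_Lh (ZFSet.mem_insert_iff.2 (Or.inr hA))
  have hMC : ZFCm (· ∈ LN N μ.ord) := by
    obtain ⟨g₀, hg₀M, hg₀⟩ := hLEN _ hMZ ∅ A ∅ hMZ.mempty hAM hMZ.mempty lfn_tr0 lfn_empty κ.ord
      (ord_mem_Lh hit (ord_lt_ord.2 hκμ))
    rw [hNL] at hg₀
    obtain ⟨β, f, hf, hfo⟩ := (hLEO _ hMZ N hNM).1 ⟨g₀, hg₀M, hg₀⟩
    have hβ : β.toZFSet ∈ LN N μ.ord := by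
      rw [← lfn_dm hfo.1]
      exact (Tm.dm (Tm.var 0)).1 _ hMZ (fun _ => f) (fun _ => hf)
    have hg : Enm (insert (ZFSet.pair β.toZFSet N) f) (insert N N) := by
      refine ⟨?_, ?_, ?_⟩
      · intro q hq
        rcases ZFSet.mem_insert_iff.1 hq with rfl | h1
        · exact ⟨β, N, ZFSet.mem_insert_iff.2 (Or.inl rfl), rfl⟩
        · obtain ⟨u, hu, y, hy, rfl⟩ := ZFSet.mem_prod.1 (hfo.1.1 h1)
          obtain ⟨ξ, -, rfl⟩ := Ordinal.mem_toZFSet_iff.1 hu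
          exact ⟨ξ, y, ZFSet.mem_insert_iff.2 (Or.inr hy), rfl⟩
      · intro u y z hy hz
        rcases ZFSet.mem_insert_iff.1 hy with h1 | h1 <;>
          rcases ZFSet.mem_insert_iff.1 hz with h2 | h2
        · rw [(ZFSet.pair_injective h1).2, (ZFSet.pair_injective h2).2]
        · exfalso
          have h3 := (ZFSet.pair_mem_prod.1 (hfo.1.1 h2)).1
          rw [(ZFSet.pair_injective h1).1] at h3
          exact ZFSet.mem_irrefl _ h3
        · exfalso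
          have h3 := (ZFSet.pair_mem_prod.1 (hfo.1.1 h1)).1
          rw [(ZFSet.pair_injective h2).1] at h3
          exact ZFSet.mem_irrefl _ h3
        · exact svl_of_isFunc hfo.1 u y z h1 h2
      · intro y hy
        rcases ZFSet.mem_insert_iff.1 hy with rfl | h1
        · exact ⟨β.toZFSet, ZFSet.mem_insert_iff.2 (Or.inl rfl)⟩
        · obtain ⟨u, -, hu⟩ := hfo.2 y h1
          exact ⟨u, ZFSet.mem_insert_iff.2 (Or.inr hu)⟩
    have hgM : (insert (ZFSet.pair β.toZFSet N) f : V) ∈ LN N μ.ord := by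
      have h1 := (Tm.ins (Tm.pair (Tm.var 0) (Tm.var 1)) (Tm.var 2)).1 _ hMZ
        (cons β.toZFSet (cons N fun _ => f))
        (In.cons (M := (· ∈ LN N μ.ord)) (In.cons (M := (· ∈ LN N μ.ord)) (fun _ => hf) hNM) hβ)
      exact h1
    exact lfn_zfc hLEN hLEO hμr hit hMZ hiM hMZ.mempty hgM hg
  refine ⟨hNC, hMC, ?_⟩
  -- regularity
  intro x hx f hf hfun
  have hR : rnF N x f ∈ LN N μ.ord := by
    have h1 : Dfb ZFm (fun _ v => ∃ u ∈ v 1, ZFSet.pair u (v 0) ∈ v 2) :=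
      (Dfb.bex (R := fun _ v => ZFSet.pair (v 0) (v 1) ∈ v 3) ktr_zfm (Tm.var 1)
        (Dfb.pairMem (Tm.var 0) (Tm.var 1) (Tm.var 3))).congr fun M k v hv => Iff.rfl
    have h2 := (Tm.sep h1 (Tm.var 2)).1 _ hMZ (cons x (cons f fun _ => N))
      (In.cons (M := (· ∈ LN N μ.ord)) (In.cons (M := (· ∈ LN N μ.ord)) (fun _ => hNM) hf)
        (hMZ.trans N hNM x hx))
    exact h2
  -- a bound for the values
  obtain ⟨d, hd, hxd⟩ := (mem_Lh_limit hlim).1 (by rw [hNL]; exact hx : x ∈ Lh ∅ A κ.ord)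
  have hxc : x.card < κ := by
    refine lt_of_le_of_lt (ZFSet.card_mono (Lh_isTransitive lfn_tr0 d x hxd)) ?_
    refine lt_of_le_of_lt (hLCA ∅ A d) ?_
    rw [ZFSet.card_empty]
    exact max_lt (max_lt hκ0 hκ.pos) (lt_ord.1 hd)
  have hval : ∀ u : {u // u ∈ x}, ∃ β < κ.ord, app f u.1 ∈ Lh ∅ A β := by
    intro u
    have h1 : app f u.1 ∈ Lh ∅ A κ.ord := by
      rw [hNL]
      exact app_mem hfun u.2
    exact (mem_Lh_limit hlim).1 h1
  choose ℓ hℓ hℓ2 using hval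
  let e : Ordinal.{0} := iSup fun i : Shrink.{0} {u // u ∈ x} => ℓ ((equivShrink _).symm i)
  have he : e < κ.ord := Ordinal.iSup_lt_of_lt_cof (by rw [hκ.cof_ord]; exact hxc) fun i => hℓ _
  have hsub : rnF N x f ⊆ Lh ∅ A e := by
    intro y hy
    obtain ⟨-, u, hu, huy⟩ := ZFSet.mem_sep.1 hy
    have h1 : app f u = y := app_eq (svl_of_isFunc hfun) huy
    rw [← h1]
    refine Lh_mono ?_ (hℓ2 ⟨u, hu⟩)
    have h2 := Ordinal.le_iSup (fun i : Shrink.{0} {u // u ∈ x} => ℓ ((equivShrink _).symm i))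
      (equivShrink _ ⟨u, hu⟩)
    simpa using h2
  refine hLBS' _ hR (Lh ∅ A e) ?_ hsub
  rw [← hNL]
  exact Lh_mem he

end SF
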