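import Pool.Agent.H68.SF.LT3

/-! LFU: fullness of generic extensions. -/

open Ordinal Cardinal Order Set
open scoped ZFSet

namespace SF

/-- a 4-ary form of the forcing relation of the formula `φ`: arguments `z, t, F, r`; the names are
`F, fst t, z, F, F, ...`, the condition is `snd t` -/
private theorem lfu_dfb (hFC : T_FC) (φ : Fml) : Dfb ZFm (fun M u =>
    frc M (u 3) φ (cons (u 2) (cons (fst (u 1)) (cons (u 0) fun _ => u 2))) (snd (u 1))) := by
  refine ((hFC φ).comp (fun i => match i with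
    | 0 => fun _ u => u 3
    | 1 => fun _ u => snd (u 1)
    | 2 => fun _ u => u 2
    | 3 => fun _ u => fst (u 1)
    | 4 => fun _ u => u 0
    | _ => fun _ u => u 2) ?_).congr ?_
  · intro i
    match i with
    | 0 => exact Tm.var 3
    | 1 => exact Tm.snd (Tm.var 1)
    | 2 => exact Tm.var 2
    | 3 => exact Tm.fst (Tm.var 1)
    | 4 => exact Tm.var 0
    | n + 5 => exact Tm.var 2
  · intro M k v hv
    have e : (fun i => (fun i : ℕ => (match i with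
      | 0 => fun _ u => u 3
      | 1 => fun _ u => snd (u 1)
      | 2 => fun _ u => u 2
      | 3 => fun _ u => fst (u 1)
      | 4 => fun _ u => u 0
      | _ => fun _ u => u 2 : (V → Prop) → (ℕ → V) → V) M v) (i + 2)) =
        cons (v 2) (cons (fst (v 1)) (cons (v 0) fun _ => v 2)) := by
      funext i
      match i with
      | 0 => rfl
      | 1 => rfl
      | 2 => rfl
      | n + 3 => rfl
    show frc M (v 3) φ (fun i => (fun i : ℕ => (match i with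
      | 0 => fun _ u => u 3
      | 1 => fun _ u => snd (u 1)
      | 2 => fun _ u => u 2
      | 3 => fun _ u => fst (u 1)
      | 4 => fun _ u => u 0
      | _ => fun _ u => u 2 : (V → Prop) → (ℕ → V) → V) M v) (i + 2)) (snd (v 1)) ↔ _
    rw [e]

private theorem lfu_dfb4 (hFC : T_FC) (φ : Fml) {a b c d : (V → Prop) → (ℕ → V) → V}
    (ha : Tm ZFm a) (hb : Tm ZFm b) (hc : Tm ZFm c) (hd : Tm ZFm d) : Dfb ZFm (fun M u =>
    frc M (d M u) φ (cons (c M u) (cons (fst (b M u)) (cons (a M u) fun _ => c M u)))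
      (snd (b M u))) :=
  (lfu_dfb hFC φ).comp (args [a, b, c, d]) (tm_args _ (by
    intro x hx
    simp only [List.mem_cons, List.not_mem_nil, or_false] at hx
    rcases hx with rfl | rfl | rfl | rfl <;> assumption))

private theorem lfu_ins {K : V} (h : K.IsTransitive) : (insert K K : V).IsTransitive := by
  intro x hx y hy
  rw [ZFSet.mem_insert_iff] at hx ⊢
  right
  rcases hx with rfl | hx
  · exact hy
  · exact h x hx hy

theorem pf_LFU (hLRI : T_LRI) (hLHT : T_LHT) (hLIN : T_LIN) (hLHE : T_LHE) (hFC : T_FC)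
    (hFG : T_FG) (hFI : T_FI) (hFJ : T_FJ) (hFL : T_FL) (hFN : T_FN) : T_LFU := by
  intro W N' A' c r G τ hfull hNC hA' hN' hc hr hpo hgen
  obtain ⟨hN't, hωN', γ, hWγ, hMC, hreg⟩ := hfull
  have hNZ : ZFm (· ∈ N') := hNC.toZFm
  obtain ⟨M, hM⟩ : ∃ M, M = LN N' γ := ⟨_, rfl⟩
  rw [← hM] at hMC hreg
  have hMZ : ZFm (· ∈ M) := hMC.toZFm
  have hMt : M.IsTransitive := fun x hx y hy => hMZ.trans x hx y hy
  have hNM : N' ∈ M := hM ▸ sub_Lh (ZFSet.mem_insert_iff.2 (Or.inl rfl))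
  have hNsM : ∀ x ∈ N', x ∈ M := fun x hx => hMt N' hNM hx
  have hregM : RegIn N' (· ∈ M) := hreg
  obtain ⟨hri1, hri2⟩ := hLRI N' (· ∈ M) hMZ hNZ hNM hregM
  have hgenM : Gen (· ∈ M) c r G :=
    ⟨hgen.1, fun D hD hd => hgen.2 D (hri1 c hc D hD hd.1) hd⟩
  obtain ⟨hKZ, hNK, hGK⟩ := hFI (· ∈ N') c r G hNZ hc hr hpo hgen
  obtain ⟨hEZ, hME, hGE⟩ := hFI (· ∈ M) c r G hMZ (hNsM c hc) (hNsM r hr) hpo hgenM
  have hEC := hFJ (· ∈ M) c r G hMC (hNsM c hc) (hNsM r hr) hpo hgenM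
  obtain ⟨K, hK⟩ : ∃ K, K = extS N' G := ⟨_, rfl⟩
  obtain ⟨E', hE'⟩ : ∃ E', E' = extS M G := ⟨_, rfl⟩
  rw [ext_eq_extS, ← hK] at hKZ hNK hGK
  rw [ext_eq_extS, ← hE'] at hEZ hME hGE hEC
  rw [← hK]
  have hKt : K.IsTransitive := fun x hx y hy => hKZ.trans x hx y hy
  have hEt : E'.IsTransitive := fun x hx y hy => hEZ.trans x hx y hy
  -- heights
  obtain ⟨hRK, -, hext⟩ := hFL
  have hinM : (insert N' N' : V) ∈ M :=
    (Tm.ins (Tm.var 0) (Tm.var 0)).1 _ hMZ (fun _ => N') (fun _ => hNM)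
  obtain ⟨hγlim, hγM⟩ := hLHE (insert N' N') ∅ γ (lfu_ins hN't) (by rw [hM] at hMZ; exact hMZ)
    (by rw [hM] at hinM; exact hinM) (by
      have h1 := hMZ.mempty
      rw [hM] at h1
      exact h1)
  have hγM' : ∀ α : Ordinal.{0}, α.toZFSet ∈ M ↔ α < γ := by
    intro α
    rw [hM]
    exact hγM α
  have hγE : ∀ α : Ordinal.{0}, α.toZFSet ∈ E' ↔ α < γ := by
    intro α
    rw [← hγM' α]
    constructor
    · intro h
      rw [hE', mem_extS] at h
      exact hext (· ∈ M) G α hMZ h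
    · exact fun h => hME _ h
  -- `K` is in the extension
  have hKE : K ∈ E' := by
    have h1 := (Tm.image (f := fun _ v => v 0) (g := fun _ u => val (u 2) (u 0)) (Tm.var 0)
      (Tm.val (Tm.var 2) (Tm.var 0))).1 _ hEZ (cons N' fun _ => G)
      (In.cons (M := (· ∈ E')) (fun _ => hGE) (hME N' hNM))
    rw [hK]
    exact h1
  have tL : Tm ZFm (fun _ v => Lh (insert (v 0) (v 0)) ∅ (v 1).rank) := by
    have h1 := Tm.at3 (F := fun _ x y z => Lh x y z.rank) hLHT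
      (Tm.ins (Tm.var 0) (Tm.var 0)) Tm.empty (Tm.var 1)
    exact h1
  have hPE : LN K γ = E' := by
    ext x
    constructor
    · intro hx
      obtain ⟨α, hα, hxα⟩ := (mem_Lh_limit hγlim).1 hx
      have h1 := tL.1 _ hEZ (cons K fun _ => α.toZFSet)
        (In.cons (M := (· ∈ E')) (fun _ => (hγE α).2 hα) hKE)
      have h2 : Lh (insert K K) ∅ α.toZFSet.rank ∈ E' := h1
      rw [Ordinal.rank_toZFSet] at h2
      exact hEt _ h2 hxα
    · have hPZ : ZFm (· ∈ LN K γ) := by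
        have hKE' : (insert K K : V) ∈ E' :=
          (Tm.ins (Tm.var 0) (Tm.var 0)).1 _ hEZ (fun _ => K) (fun _ => hKE)
        have h1 := hLIN (· ∈ E') hEZ (insert K K) ∅ hKE' hEZ.mempty (lfu_ins hKt)
        have e : (fun x => ∃ α : Ordinal.{0}, α.toZFSet ∈ E' ∧ x ∈ Lh (insert K K) ∅ α) =
            (· ∈ LN K γ) := by
          funext x
          refine propext ?_
          constructor
          · rintro ⟨α, hα, hx⟩
            exact (mem_Lh_limit hγlim).2 ⟨α, (hγE α).1 hα, hx⟩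
          · intro hx
            obtain ⟨α, hα, hxα⟩ := (mem_Lh_limit hγlim).1 hx
            exact ⟨α, (hγE α).2 hα, hxα⟩
        rwa [e] at h1
      have hKP : ∀ x ∈ K, x ∈ LN K γ := fun x hx => sub_Lh (ZFSet.mem_insert_iff.2 (Or.inr hx))
      have hoP : ∀ α < γ, α.toZFSet ∈ LN K γ := fun α hα => ord_mem_Lh (lfu_ins hKt) hα
      have hτγ : τ < γ := by
        have h1 : N'.rank.toZFSet ∈ M := hRK.1 _ hMZ (fun _ => N') (fun _ => hNM)
        refine lt_of_le_of_lt ?_ ((hγM' _).1 h1)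
        refine le_of_forall_lt fun α hα => ?_
        have h2 : α.toZFSet ∈ N' := by
          rw [hN']
          exact ord_mem_Lh (fun x hx => absurd hx (ZFSet.notMem_empty x)) hα
        have h3 := ZFSet.rank_lt_of_mem h2
        rwa [Ordinal.rank_toZFSet] at h3
      have hNP : N' ∈ LN K γ := by
        have h1 := hLHT.1 _ hPZ (cons ∅ (cons A' fun _ => τ.toZFSet))
          (In.cons (M := (· ∈ LN K γ)) (In.cons (M := (· ∈ LN K γ)) (fun _ => hoP τ hτγ)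
            (hKP _ (hNK A' hA'))) hPZ.mempty)
        have h2 : Lh ∅ A' τ.toZFSet.rank ∈ LN K γ := h1
        rw [Ordinal.rank_toZFSet] at h2
        rw [hN']
        exact h2
      have hMP : ∀ x, x ∈ M → x ∈ LN K γ := by
        intro x hx
        rw [hM] at hx
        obtain ⟨α, hα, hxα⟩ := (mem_Lh_limit hγlim).1 hx
        have h1 := tL.1 _ hPZ (cons N' fun _ => α.toZFSet)
          (In.cons (M := (· ∈ LN K γ)) (fun _ => hoP α hα) hNP)
        have h2 : Lh (insert N' N') ∅ α.toZFSet.rank ∈ LN K γ := h1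
        rw [Ordinal.rank_toZFSet] at h2
        exact hPZ.trans _ h2 x hxα
      intro hx
      rw [hE', mem_extS] at hx
      exact hFN (· ∈ M) (· ∈ LN K γ) G hPZ hMP (hKP G hGK) x hx
  refine ⟨hKt, hKZ.inf, γ, hWγ, by rw [hPE]; exact hEC, ?_⟩
  rw [hPE]
  -- regularity
  intro x hx f hf hfun
  obtain ⟨X, hX, hxX⟩ : ∃ X, X ∈ N' ∧ x = val G X := by
    rw [hK, mem_extS] at hx
    exact hx
  obtain ⟨F, hF, hfF⟩ : ∃ F, F ∈ M ∧ f = val G F := by
    rw [hE', mem_extS] at hf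
    exact hf
  obtain ⟨φ, hφ⟩ : Dfb ZFm (fun _ w => ZFSet.pair (w 1) (w 2) ∈ w 0) :=
    Dfb.pairMem (Tm.var 1) (Tm.var 2) (Tm.var 0)
  -- the forcing relation
  obtain ⟨P, hP⟩ : ∃ P : V → V → Prop, ∀ z t, P z t ↔
      frc (· ∈ M) r φ (cons F (cons (fst t) (cons z fun _ => F))) (snd t) := ⟨_, fun _ _ => Iff.rfl⟩
  have hasg : ∀ a z, a ∈ M → z ∈ M → In (· ∈ M) (cons F (cons a (cons z fun _ => F))) :=
    fun a z ha hz => In.cons (M := (· ∈ M)) (In.cons (M := (· ∈ M)) (In.cons (M := (· ∈ M))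
      (fun _ => hF) hz) ha) hF
  have htruth : ∀ a z, a ∈ M → z ∈ M → (ZFSet.pair (val G a) (val G z) ∈ f ↔
      ∃ q ∈ G, frc (· ∈ M) r φ (cons F (cons a (cons z fun _ => F))) q) := by
    intro a z ha hz
    rw [← hFG (· ∈ M) c r G hMZ (hNsM c hc) (hNsM r hr) hpo hgenM φ _ (hasg a z ha hz)]
    rw [ext_eq_extS, ← hE', hφ (· ∈ E') hEZ _ (by
      intro i
      show val G (cons F (cons a (cons z fun _ => F)) i) ∈ E'
      rw [hE', mem_extS]
      exact ⟨_, hasg a z ha hz i, rfl⟩)]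
    rw [hfF]
    exact Iff.rfl
  -- the set of the pairs of names and conditions which decide a value
  obtain ⟨D, hDN, hD⟩ : ∃ D, D ∈ N' ∧ D = ZFSet.prod (dm X) c :=
    ⟨_, (Tm.prod (Tm.dm (Tm.var 0)) (Tm.var 1)).1 _ hNZ (cons X fun _ => c)
      (In.cons (M := (· ∈ N')) (fun _ => hc) hX), rfl⟩
  obtain ⟨E, hEM, hE⟩ : ∃ E, E ∈ M ∧ ∀ t, t ∈ E ↔ t ∈ D ∧ ∃ z ∈ N', P z t := by
    have h1 : Dfb ZFm (fun M u => ∃ z ∈ u 3, frc M (u 2) φ
        (cons (u 1) (cons (fst (u 0)) (cons z fun _ => u 1))) (snd (u 0))) :=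
      (Dfb.bex ktr_zfm (Tm.var 3) (lfu_dfb4 hFC φ (Tm.var 0) (Tm.var 1) (Tm.var 2)
        (Tm.var 3))).congr fun M k v hv => Iff.rfl
    have h2 := (Tm.sep h1 (Tm.var 3)).1 _ hMZ (cons F (cons r (cons N' fun _ => D)))
      (In.cons (M := (· ∈ M)) (In.cons (M := (· ∈ M)) (In.cons (M := (· ∈ M))
        (fun _ => hNsM D hDN) hNM) (hNsM r hr)) hF)
    refine ⟨_, h2, fun t => ?_⟩
    rw [ZFSet.mem_sep]
    refine and_congr_right fun _ => exists_congr fun z => and_congr_right fun _ => ?_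
    rw [hP]
    exact Iff.rfl
  have hEN : E ∈ N' := hri1 D hDN E hEM fun t ht => ((hE t).1 ht).1
  -- the choice of a name of the value
  obtain ⟨α, e, heM, heo⟩ := hMC.wo N' hNM
  have hαM : α.toZFSet ∈ M := by
    have h1 : dm e = α.toZFSet := by
      ext u
      rw [mem_dm]
      constructor
      · rintro ⟨y, hy⟩
        exact (ZFSet.pair_mem_prod.1 (heo.1.1 hy)).1
      · intro hu
        obtain ⟨y, hy, -⟩ := heo.1.2 u hu
        exact ⟨y, hy⟩
    rw [← h1]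
    exact (Tm.dm (Tm.var 0)).1 _ hMZ (fun _ => e) (fun _ => heM)
  obtain ⟨g, hgM, hg⟩ : ∃ g, g ∈ M ∧ ∀ q, q ∈ g ↔ q ∈ ZFSet.prod E N' ∧ ∃ ξ ∈ α.toZFSet,
      (snd q = app e ξ ∧ (P (app e ξ) (fst q) ∧ ∀ η ∈ ξ, ¬ P (app e η) (fst q))) := by
    have p1 : Dfb ZFm (fun M u => frc M (u 3) φ (cons (u 2) (cons (fst (fst (u 1)))
        (cons (app (u 5) (u 0)) fun _ => u 2))) (snd (fst (u 1)))) :=
      lfu_dfb4 hFC φ (Tm.app (Tm.var 5) (Tm.var 0)) (Tm.fst (Tm.var 1)) (Tm.var 2) (Tm.var 3)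
    have p2 : Dfb ZFm (fun M u => ∀ η ∈ u 0, ¬ frc M (u 3) φ (cons (u 2) (cons (fst (fst (u 1)))
        (cons (app (u 5) η) fun _ => u 2))) (snd (fst (u 1)))) :=
      (Dfb.ball ktr_zfm (Tm.var 0) (lfu_dfb4 hFC φ (Tm.app (Tm.var 6) (Tm.var 0))
        (Tm.fst (Tm.var 2)) (Tm.var 3) (Tm.var 4)).not).congr fun M k v hv => Iff.rfl
    have p3 := Dfb.bex ktr_zfm (Tm.var 3) ((Dfb.eq (Tm.snd (Tm.var 1))
      (Tm.app (Tm.var 5) (Tm.var 0))).and (p1.and p2))
    have h2 := (Tm.sep p3 (Tm.var 4)).1 _ hMZ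
      (cons F (cons r (cons α.toZFSet (cons e fun _ => ZFSet.prod E N'))))
      (In.cons (M := (· ∈ M)) (In.cons (M := (· ∈ M)) (In.cons (M := (· ∈ M))
        (In.cons (M := (· ∈ M)) (fun _ => (Tm.prod (Tm.var 0) (Tm.var 1)).1 _ hMZ
          (cons E fun _ => N') (In.cons (M := (· ∈ M)) (fun _ => hNM) hEM)) heM) hαM)
          (hNsM r hr)) hF)
    refine ⟨_, h2, fun q => ?_⟩
    rw [ZFSet.mem_sep]
    refine and_congr_right fun _ => exists_congr fun ξ => and_congr_right fun _ =>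
      and_congr_right fun _ => ?_
    rw [hP]
    refine and_congr_right fun _ => forall_congr' fun η => imp_congr_right fun _ => ?_
    rw [hP]
    exact Iff.rfl
  have hgf : ZFSet.IsFunc E N' g := by
    refine ⟨fun q hq => ((hg q).1 hq).1, fun t ht => ?_⟩
    obtain ⟨htD, z, hz, hPz⟩ := (hE t).1 ht
    obtain ⟨a, ha, haz⟩ := heo.2 z hz
    obtain ⟨ξ₀, hξ₀, rfl⟩ := Ordinal.mem_toZFSet_iff.1 ha
    have hz0 : app e ξ₀.toZFSet = z := app_eq (svl_of_isFunc heo.1) haz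
    have hex : ∃ ξ : Ordinal.{0}, ξ < α ∧ P (app e ξ.toZFSet) t ∧
        ∀ η < ξ, ¬ P (app e η.toZFSet) t := by
      have hne : {ξ : Ordinal.{0} | ξ < α ∧ P (app e ξ.toZFSet) t}.Nonempty :=
        ⟨ξ₀, hξ₀, by rw [hz0]; exact hPz⟩
      have hm := csInf_mem hne
      refine ⟨_, hm.1, hm.2, fun η hη h => ?_⟩
      exact absurd (csInf_le' (show η ∈ {ξ : Ordinal.{0} | ξ < α ∧ P (app e ξ.toZFSet) t} from
        ⟨hη.trans hm.1, h⟩)) (not_le.2 hη)
    obtain ⟨ξ, hξ, h1, h2⟩ := hex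
    refine ⟨app e ξ.toZFSet, (hg _).2 ⟨ZFSet.pair_mem_prod.2 ⟨ht, ?_⟩, ξ.toZFSet,
      Ordinal.toZFSet_mem_toZFSet_iff.2 hξ, by rw [snd_pair], ?_, ?_⟩, ?_⟩
    · exact app_mem heo.1 (Ordinal.toZFSet_mem_toZFSet_iff.2 hξ)
    · rw [fst_pair]
      exact h1
    · intro η hη
      obtain ⟨η, hη', rfl⟩ := Ordinal.mem_toZFSet_iff.1 hη
      rw [fst_pair]
      exact h2 η hη'
    · intro y hy
      obtain ⟨-, ξ', hξ', h3, h4, h5⟩ := (hg _).1 hy
      obtain ⟨ξ', hξ', rfl⟩ := Ordinal.mem_toZFSet_iff.1 hξ'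
      rw [snd_pair] at h3
      rw [fst_pair] at h4 h5
      rw [h3]
      rcases lt_trichotomy ξ ξ' with h | h | h
      · exact absurd h1 (h5 _ (Ordinal.toZFSet_mem_toZFSet_iff.2 h))
      · rw [h]
      · exact absurd h4 (h2 _ h)
  have hgN : g ∈ N' := hri2 E hEN g hgM hgf
  have hgP : ∀ t ∈ E, P (app g t) t := by
    intro t ht
    obtain ⟨-, ξ, -, h3, h4, -⟩ := (hg _).1 (pair_app_mem hgf ht)
    rw [snd_pair] at h3
    rw [fst_pair] at h4
    rw [h3]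
    exact h4
  -- the image
  have himg : (K.sep fun y => ∃ u ∈ x, ZFSet.pair u y ∈ f) =
      imS (E.sep fun t => snd t ∈ G ∧ val G (fst t) ∈ x) fun t => val G (app g t) := by
    ext y
    rw [ZFSet.mem_sep, mem_imS]
    constructor
    · rintro ⟨hy, u, hu, huy⟩
      obtain ⟨z, hz, hyz⟩ : ∃ z, z ∈ N' ∧ y = val G z := by
        rw [hK, mem_extS] at hy
        exact hy
      have hu2 := hu
      rw [hxX, mem_val] at hu2
      obtain ⟨y₀, p₀, hp₀, hyX, huy₀⟩ := hu2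
      have hy₀ : y₀ ∈ N' := (hNZ.of_pair_mem hX hyX).1
      have h1 : ZFSet.pair (val G y₀) (val G z) ∈ f := by
        rw [← huy₀, ← hyz]
        exact huy
      obtain ⟨q, hq, hfrc⟩ := (htruth y₀ z (hNsM _ hy₀) (hNsM _ hz)).1 h1
      have htE : ZFSet.pair y₀ q ∈ E := by
        refine (hE _).2 ⟨?_, z, hz, ?_⟩
        · rw [hD, ZFSet.pair_mem_prod]
          exact ⟨mem_dm.2 ⟨p₀, hyX⟩, hgen.1.sub hq⟩
        · rw [hP, fst_pair, snd_pair]
          exact hfrc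
      refine ⟨ZFSet.pair y₀ q, ZFSet.mem_sep.2 ⟨htE, by rw [snd_pair]; exact hq, ?_⟩, ?_⟩
      · rw [fst_pair, ← huy₀]
        exact hu
      · have h2 := hgP _ htE
        rw [hP, fst_pair, snd_pair] at h2
        have h3 := (htruth y₀ (app g (ZFSet.pair y₀ q)) (hNsM _ hy₀)
          (hNsM _ (app_mem hgf htE))).2 ⟨q, hq, h2⟩
        rw [← huy₀] at h3
        exact svl_of_isFunc hfun _ _ _ h3 huy
    · rintro ⟨t, ht, rfl⟩
      obtain ⟨htE, h1, h2⟩ := ZFSet.mem_sep.1 ht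
      have hgt : app g t ∈ N' := app_mem hgf htE
      refine ⟨?_, val G (fst t), h2, ?_⟩
      · rw [hK, mem_extS]
        exact ⟨_, hgt, rfl⟩
      · have h3 := hgP t htE
        rw [hP] at h3
        obtain ⟨a, ha, b, hb, rfl⟩ := ZFSet.mem_prod.1 (hD ▸ ((hE t).1 htE).1)
        rw [fst_pair] at h3 ⊢
        obtain ⟨s, hs⟩ := mem_dm.1 ha
        exact (htruth a _ (hNsM _ (hNZ.of_pair_mem hX hs).1) (hNsM _ hgt)).2 ⟨_, h1, h3⟩
  rw [himg]
  have hS : Tm ZFm (fun _ v => (v 0).sep fun t => snd t ∈ v 1 ∧ val (v 1) (fst t) ∈ v 2) :=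
    Tm.sep (R := fun _ u => snd (u 0) ∈ u 2 ∧ val (u 2) (fst (u 0)) ∈ u 3)
      ((Dfb.mem (Tm.snd (Tm.var 0)) (Tm.var 2)).and
        (Dfb.mem (Tm.val (Tm.var 2) (Tm.fst (Tm.var 0))) (Tm.var 3))) (Tm.var 0)
  have hI := (Tm.image hS (g := fun _ u => val (u 2) (app (u 4) (u 0)))
    (Tm.val (Tm.var 2) (Tm.app (Tm.var 4) (Tm.var 0)))).1 _ hKZ
    (cons E (cons G (cons x fun _ => g)))
    (In.cons (M := (· ∈ K)) (In.cons (M := (· ∈ K)) (In.cons (M := (· ∈ K))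
      (fun _ => hNK g hgN) hx) hGK) (hNK E hEN))
  exact hI

end SF
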