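import Pool.Agent.H68.SF.LT3

/-! LNP: nice pairs exist above every set. -/

open Ordinal Cardinal Order Set
open scoped ZFSet

namespace SF

/-- satisfaction in a set is a definable relation, for each formula -/
private theorem lnp_rel (φ : Fml) : Dfb KT (fun _ v => Sat (· ∈ v 0) φ (fun i => v (i + 1))) := by
  unfold Sat
  induction φ with
  | mem i j => exact Dfb.mem (Tm.var (i + 1)) (Tm.var (j + 1))
  | eq i j => exact Dfb.eq (Tm.var (i + 1)) (Tm.var (j + 1))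
  | prd i => exact Dfb.fls
  | neg φ ih => exact ih.not
  | and φ ψ ih1 ih2 => exact ih1.and ih2
  | ex φ ih =>
    have h1 := Dfb.bex ktr_kt (Tm.var 0) (ih.rn (fun i => match i with
      | 0 => 1
      | 1 => 0
      | i + 2 => i + 2))
    refine h1.congr fun M k v hv => ?_
    show _ ↔ ∃ x, x ∈ v 0 ∧ _
    refine exists_congr fun x => and_congr_right fun _ => ?_
    have e : (fun i => (fun i => cons x v (match i with
      | 0 => 1
      | 1 => 0
      | i + 2 => i + 2)) (i + 1)) = cons x fun i => v (i + 1) := by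
      funext i
      cases i <;> rfl
    show SatP (· ∈ v 0) _ φ (fun i => (fun i => cons x v (match i with
      | 0 => 1
      | 1 => 0
      | i + 2 => i + 2)) (i + 1)) ↔ _
    rw [e]

private theorem lnp_reg : Dfb ZFm (fun M v => ∀ x ∈ v 0, ∀ h, M h → (ZFSet.IsFunc x (v 0) h →
    ∃ z ∈ v 0, ∀ y, M y → (y ∈ z ↔ y ∈ v 0 ∧ ∃ u ∈ x, ZFSet.pair u y ∈ h))) := by
  have h1 : Dfb ZFm (fun _ v => ∃ u ∈ v 3, ZFSet.pair u (v 0) ∈ v 2) :=
    (Dfb.bex (R := fun _ v => ZFSet.pair (v 0) (v 1) ∈ v 3) ktr_zfm (Tm.var 3)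
      (Dfb.pairMem (Tm.var 0) (Tm.var 1) (Tm.var 3))).congr fun M k v hv => Iff.rfl
  have h2 : Dfb ZFm (fun _ v => (v 0 ∈ v 1 ↔ v 0 ∈ v 4 ∧ ∃ u ∈ v 3, ZFSet.pair u (v 0) ∈ v 2)) :=
    (Dfb.mem (Tm.var 0) (Tm.var 1)).iff ((Dfb.mem (Tm.var 0) (Tm.var 4)).and h1)
  have h3 := Dfb.bex ktr_zfm (Tm.var 2) h2.all
  have h4 := ((Dfb.isFunc (Tm.var 1) (Tm.var 2) (Tm.var 0)).imp h3).all
  exact (Dfb.ball ktr_zfm (Tm.var 0) h4).congr fun M k v hv => Iff.rfl

theorem pf_LNP (hLEX : T_LEX) (hLFN : T_LFN) (hLLS : T_LLS) (hLCO : T_LCO) (hLED : T_LED)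
    (hLET : T_LET) (hLEZ : T_LEZ) (hLHT : T_LHT) : T_LNP := by
  intro p
  obtain ⟨κ, A, hκ, hκ0, hA, hp⟩ := hLEX p
  obtain ⟨hNC, hMC, hreg⟩ := hLFN κ hκ hκ0 A hA
  obtain ⟨N, hN⟩ : ∃ N, N = LA A κ.ord := ⟨_, rfl⟩
  rw [← hN] at hA hp hNC hMC hreg
  have hNt : N.IsTransitive := fun x hx y hy => hNC.trans x hx y hy
  obtain ⟨μ, hμ⟩ : ∃ μ, μ = (succ N.card).ord := ⟨_, rfl⟩
  have hμlim : IsSuccLimit μ := by
    rw [hμ]
    refine isSuccLimit_ord ?_
    have h1 : κ.ord.toZFSet.card ≤ N.card :=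
      ZFSet.card_mono (hN ▸ (ord_sub_Lh (fun x hx => absurd hx (ZFSet.notMem_empty x)) κ.ord).1)
    rw [Ordinal.card_toZFSet, card_ord] at h1
    exact (hκ.aleph0_le.trans h1).trans (le_succ _)
  rw [← hμ] at hMC hreg
  obtain ⟨M, hM⟩ : ∃ M, M = LN N μ := ⟨_, rfl⟩
  rw [← hM] at hMC hreg
  have hMt : M.IsTransitive := fun x hx y hy => hMC.trans x hx y hy
  have hit : (insert N N : V).IsTransitive := by
    intro x hx y hy
    rw [ZFSet.mem_insert_iff] at hx ⊢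
    right
    rcases hx with rfl | hx
    · exact hy
    · exact hNt x hx hy
  have hNM : N ∈ M := hM ▸ sub_Lh (ZFSet.mem_insert_iff.2 (Or.inl rfl))
  have hpM : p ∈ M := hMt N hNM hp
  -- a countable elementary submodel and its collapse
  obtain ⟨X, hXM, hSX, hXc, -⟩ := hLLS ℵ₁ isRegular_aleph_one aleph0_lt_aleph_one M {N, p}
    ⟨N, hNM⟩ (by
      intro x hx
      rcases ZFSet.mem_pair.1 hx with rfl | rfl
      · exact hNM
      · exact hpM) (by
      refine lt_of_le_of_lt ZFSet.card_insert_le ?_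
      rw [ZFSet.card_singleton]
      refine lt_trans ?_ aleph0_lt_aleph_one
      rw [one_add_one_eq_two]
      exact_mod_cast Cardinal.natCast_lt_aleph0 (n := 2)) (fun _ => ∅)
    (fun x hx => ⟨by
      rw [ZFSet.card_empty]
      exact isRegular_aleph_one.pos, fun y hy => absurd hy (ZFSet.notMem_empty y)⟩)
  obtain ⟨X', f₀, hX't, hel, himg, hcard, hmem, -⟩ := hLCO M X hMt ⟨N, hNM⟩ hXM
  obtain ⟨N', hN'X, hN'⟩ := (himg N).1 (hSX (ZFSet.mem_pair.2 (Or.inl rfl)))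
  obtain ⟨p', hp'X, hp'⟩ := (himg p).1 (hSX (ZFSet.mem_pair.2 (Or.inr rfl)))
  have hmN' : ∀ y, y ∈ N' ↔ y ∈ X' ∧ app f₀ y ∈ N := by
    intro y
    rw [hmem N' hN'X y, hN']
  have hp'N : p' ∈ N' := (hmN' p').2 ⟨hp'X, hp' ▸ hp⟩
  have hN't : N'.IsTransitive := by
    intro x hx y hy
    have hxX := ((hmN' x).1 hx).1
    have h1 := (hmem x hxX y).1 hy
    exact (hmN' y).2 ⟨h1.1, hNt _ ((hmN' x).1 hx).2 h1.2⟩
  have hX'C : ZFCm (· ∈ X') := (hLEZ X' M f₀ ⟨N', hN'X⟩ hX't hel).2 hMC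
  have hX'Z : ZFm (· ∈ X') := hX'C.toZFm
  have hMZ : ZFm (· ∈ M) := hMC.toZFm
  have happ : ∀ x ∈ N', app (resS N' fun x => app f₀ x) x = app f₀ x := fun x hx => app_resS hx
  refine ⟨N', N, resS N' fun x => app f₀ x, ⟨hNC, ⟨A, κ.ord, hA, hN⟩, ?_, ?_⟩, ?_,
    p', hp'N, (happ p' hp'N).trans hp'⟩
  · -- fullness
    have hω : om ∈ N' := by
      refine (hmN' _).2 ⟨hX'Z.inf, ?_⟩
      have h1 := hLET ZFm (fun _ _ => om) Tm.om X' M f₀ hel hX'Z hMZ (fun _ => N')
        (fun _ => hN'X)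
      have h2 : app f₀ om = om := h1
      rw [h2]
      exact hNC.inf
    -- the height
    obtain ⟨γ, hγ⟩ : ∃ γ : Ordinal.{0}, ∀ α : Ordinal.{0}, α.toZFSet ∈ X' ↔ α < γ := by
      have hne : {α : Ordinal.{0} | α.toZFSet ∉ X'}.Nonempty := by
        refine ⟨X'.rank, fun h => ?_⟩
        have h1 := ZFSet.rank_lt_of_mem h
        rw [Ordinal.rank_toZFSet] at h1
        exact lt_irrefl _ h1
      refine ⟨sInf {α : Ordinal.{0} | α.toZFSet ∉ X'}, fun α => ⟨fun h => ?_, fun h => ?_⟩⟩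
      · by_contra h2
        rw [not_lt] at h2
        refine csInf_mem hne ?_
        rcases h2.eq_or_lt with h3 | h3
        · exact h3 ▸ h
        · exact hX't _ h (Ordinal.toZFSet_mem_toZFSet_iff.2 h3)
      · by_contra h2
        exact absurd h (not_lt.2 (csInf_le' h2))
    have hγlim : IsSuccLimit γ := by
      rw [Ordinal.isSuccLimit_iff]
      refine ⟨?_, ?_⟩
      · have h1 := (hγ _).1 hX'Z.inf
        exact (lt_of_le_of_lt zero_le h1).ne'
      · refine Order.isSuccPrelimit_of_succ_lt fun α hα => ?_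
        rw [← hγ] at hα ⊢
        have h1 := (Tm.ins (Tm.var 0) (Tm.var 0)).1 _ hX'Z (fun _ => α.toZFSet) (fun _ => hα)
        rw [Order.succ_eq_add_one, Ordinal.toZFSet_add_one]
        exact h1
    have tL : Tm ZFm (fun _ v => Lh (insert (v 0) (v 0)) ∅ (v 1).rank) := by
      have h1 := Tm.at3 (F := fun _ x y z => Lh x y z.rank) hLHT
        (Tm.ins (Tm.var 0) (Tm.var 0)) Tm.empty (Tm.var 1)
      exact h1
    have hX'L : X' = LN N' γ := by
      ext x
      constructor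
      · intro hx
        have hd : Dfb ZFm (fun M v => ∀ x, M x → ∃ α, M α ∧ (IsOrd α ∧
            x ∈ Lh (insert (v 0) (v 0)) ∅ α.rank)) := by
          have h1 : Dfb ZFm (fun _ v => IsOrd (v 0) ∧ v 1 ∈ Lh (insert (v 2) (v 2)) ∅ (v 0).rank) :=
            (Dfb.isOrd (Tm.var 0)).and (Dfb.mem (Tm.var 1)
              (Tm.at2 (F := fun _ x y => Lh (insert x x) ∅ y.rank) tL (Tm.var 2) (Tm.var 0)))
          exact h1.ex.all.congr fun M k v hv => Iff.rfl
        have h2 := (hLED ZFm _ hd X' M f₀ hel hX'Z hMZ (fun _ => N') (fun _ => hN'X)).2 (by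
          intro z hz
          show ∃ α, α ∈ M ∧ (IsOrd α ∧ z ∈ Lh (insert (app f₀ N') (app f₀ N')) ∅ α.rank)
          rw [hN']
          rw [hM] at hz
          obtain ⟨β, hβ, hzβ⟩ := (mem_Lh_limit hμlim).1 hz
          refine ⟨β.toZFSet, ?_, ⟨β, rfl⟩, ?_⟩
          · rw [hM]
            exact ord_mem_Lh hit hβ
          · rw [Ordinal.rank_toZFSet]
            exact hzβ)
        obtain ⟨_, hα, ⟨α, rfl⟩, hxα⟩ := h2 x hx
        rw [Ordinal.rank_toZFSet] at hxα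
        exact (mem_Lh_limit hγlim).2 ⟨α, (hγ α).1 hα, hxα⟩
      · intro hx
        obtain ⟨α, hα, hxα⟩ := (mem_Lh_limit hγlim).1 hx
        have h1 := tL.1 _ hX'Z (cons N' fun _ => α.toZFSet)
          (In.cons (M := (· ∈ X')) (fun _ => (hγ α).2 hα) hN'X)
        have h2 : Lh (insert N' N') ∅ α.toZFSet.rank ∈ X' := h1
        rw [Ordinal.rank_toZFSet] at h2
        exact hX't _ h2 hxα
    refine ⟨hN't, hω, γ, trivial, hX'L ▸ hX'C, ?_⟩
    rw [← hX'L]
    have h1 := (hLED ZFm _ lnp_reg X' M f₀ hel hX'Z hMZ (fun _ => N') (fun _ => hN'X)).2 (by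
      show ∀ x ∈ app f₀ N', ∀ h, h ∈ M → (ZFSet.IsFunc x (app f₀ N') h →
        ∃ z ∈ app f₀ N', ∀ y, y ∈ M → (y ∈ z ↔ y ∈ app f₀ N' ∧ ∃ u ∈ x, ZFSet.pair u y ∈ h))
      rw [hN']
      intro x hx h hh hfun
      refine ⟨rnF N x h, hreg x hx h hh hfun, fun y _ => ?_⟩
      exact ZFSet.mem_sep)
    intro x hx h hh hfun
    obtain ⟨z, hz, hz2⟩ := h1 x hx h hh hfun
    have e : (N'.sep fun y => ∃ u ∈ x, ZFSet.pair u y ∈ h) = z := by
      ext y
      rw [ZFSet.mem_sep]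
      constructor
      · intro hy
        exact (hz2 y (hX't _ hN'X hy.1)).2 hy
      · intro hy
        exact (hz2 y (hX't _ (hX't _ hN'X hz) hy)).1 hy
    rw [e]
    exact hz
  · -- countability
    have h1 : N'.card ≤ ℵ₀ := by
      have h2 : N'.card ≤ X'.card := ZFSet.card_mono fun y hy => ((hmN' y).1 hy).1
      rw [hcard] at h2
      rw [← succ_aleph0, lt_succ_iff] at hXc
      exact h2.trans hXc
    rw [← Cardinal.le_aleph0_iff_set_countable]
    have h3 := ZFSet.cardinalMk_coe_sort (x := N')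
    have h4 : Cardinal.mk (N' : Set V) = Cardinal.lift.{1, 0} N'.card := h3
    rw [h4, ← lift_aleph0.{1, 0}]
    exact lift_le.2 h1
  · -- elementarity
    refine ⟨isFunc_resS N' N _ fun x hx => ((hmN' x).1 hx).2, fun φ v hv => ?_⟩
    have h1 := hLED KT _ (lnp_rel φ) X' M f₀ hel (fun x hx y hy => hX't x hx hy)
      (fun x hx y hy => hMt x hx hy) (cons N' v) (by
        intro i
        cases i with
        | zero => exact hN'X
        | succ n => exact ((hmN' _).1 (hv n)).1)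
    have h2 : Sat (· ∈ N') φ v ↔ Sat (· ∈ app f₀ N') φ fun i => app f₀ (v i) := h1
    rw [hN'] at h2
    rw [h2]
    have e : (fun i => app (resS N' fun x => app f₀ x) (v i)) = fun i => app f₀ (v i) := by
      funext i
      exact happ _ (hv i)
    rw [e]

end SF
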