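import Pool.Agent.H84.SF.Fin
import Pool.Agent.H27.LV.SMT

/-!
# MP_70ba79_ag, THEOREM S, chapter 14: DGE, the degree of the plane image
-/

set_option autoImplicit false

namespace Pool.Agent.H36.SF

open MvPolynomial
open _root_.SC
open Pool.Agent.H84.SF
open Pool.Agent.H27.LV (ge deg poleOrder canDeg DegreeBound)
open Pool.Agent.H84.SM (cr dt dp)
open Pool.Agent.H84.SL (pd)
open Pool.Agent.H3.SF (Itg Bb BB Hm eu grd hes Sfc Crd Crf Prm)
open Pool.Agent.H17.SD (Prj Smo HRel)

section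

variable {k K : Type} [Field k] [Field K] [Algebra k K]

lemma ord_le_po {ι : Type} [Fintype ι] (v : DV k K) (z : ι → K) (i : ι) :
    -(v.ord (z i)) ≤ (poleOrder v z : ℤ) := by
  have h : (-(v.ord (z i))).toNat ≤ poleOrder v z :=
    Finset.le_sup (f := fun i => (-(v.ord (z i))).toNat) (Finset.mem_univ i)
  omega

lemma po_attained {ι : Type} [Fintype ι] (v : DV k K) (z : ι → K) (h1 : ∃ j, z j = 1) :
    ∃ i, z i ≠ 0 ∧ (poleOrder v z : ℤ) = -(v.ord (z i)) := by
  obtain ⟨j, hj⟩ := h1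
  by_cases hP : poleOrder v z = 0
  · refine ⟨j, by rw [hj]; exact one_ne_zero, ?_⟩
    rw [hP, hj, v.ord_one]
    simp
  · obtain ⟨i, -, hi⟩ := Finset.exists_mem_eq_sup (Finset.univ : Finset ι) ⟨j, Finset.mem_univ j⟩
      (fun i => (-(v.ord (z i))).toNat)
    have hi' : poleOrder v z = (-(v.ord (z i))).toNat := hi
    refine ⟨i, ?_, by omega⟩
    intro h0
    rw [h0, v.ord_zero] at hi'
    exact hP (by simpa using hi')

lemma po_comp {ι : Type} [Fintype ι] (v : DV k K) (w : ι → K) {l0 l1 : ι} (h0 : w l0 ≠ 0)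
    (h1 : w l1 ≠ 0) : (poleOrder v (fun l => w l / w l0) : ℤ) - v.ord (w l0) ≤
      (poleOrder v (fun l => w l / w l1) : ℤ) - v.ord (w l1) := by
  obtain ⟨i, hi, hP⟩ := po_attained v (fun l => w l / w l0) ⟨l0, div_self h0⟩
  have hi0 : w i ≠ 0 := by
    intro h
    exact hi (by simp only [h, zero_div])
  have h2 := ord_le_po v (fun l => w l / w l1) i
  simp only [v.ord_div hi0 h0] at hP
  simp only [v.ord_div hi0 h1] at h2
  linarith

end

theorem pf_DGE (hPOZ : T_POZ) : T_DGE := by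
  intro k F σ K _ _ _ _ _ _ _ _ _ htr X u dd c hdd hX heu hu z hz h1 l0 hl0
  obtain ⟨l1, hl1, hpo⟩ := hPOZ k F σ K X u dd c hdd hX heu hu z hz h1
  have hpt : ∀ v : DV k K, (poleOrder v (fun l => lin c z l / lin c z l0) : ℤ) =
      v.ord (lin c z l0) + poleOrder v z := by
    intro v
    have ha := po_comp v (lin c z) hl0 hl1
    have hb := po_comp v (lin c z) hl1 hl0
    have hc := hpo v
    linarith
  have hfin : (Function.support fun v : DV k K => (poleOrder v z : ℤ)).Finite := by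
    refine (Pool.Agent.H27.LV.pfi k K htr σ z).subset fun v hv => ?_
    simpa using hv
  have hpf := Pool.Agent.H27.LV.pfm k K htr (lin c z l0)
  have h2 : ((deg k (fun l => lin c z l / lin c z l0) : ℕ) : ℤ) = (deg k z : ℕ) := by
    rw [Pool.Agent.H27.LV.cast_deg htr, Pool.Agent.H27.LV.cast_deg htr, finsum_congr hpt,
      finsum_add_distrib hpf.1 hfin, hpf.2, zero_add]
  exact_mod_cast h2

end Pool.Agent.H36.SF
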