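import Pool.Agent.H3.SF.Tg2

/-!
# srf_modules, row SEL: sections are divisible by high powers of `P` (helper36)
-/

set_option autoImplicit false

open MvPolynomial SC Pool.Agent.H27.LV
open Pool.Agent.H84.SM (dp cr dt)
open Pool.Agent.H92.SF Pool.Agent.H3.SF

namespace Pool.Agent.H36.SF

theorem pf_SEL (hEVF : T_EVF) (hRST : T_RST) (hVQE : T_VQE) (hVLQ : T_VLQ) (hHFB : T_HFB)
    (hTWM : T_TWM) : T_SEL := by
  intro k F _ _ _ _ _ u dd δ j0 c0 J hS m G hm hC n w τ P hPi hPd hPt
  classical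
  by_cases hM : Mlt u dd J j0 m G n P
  · refine ⟨∅, Set.finite_empty, fun c hc => absurd hc (Set.notMem_empty c), ?_⟩
    intro K _ _ _ _ D _ φ x g S _ _ PK _ _ _ _
    exact hM
  · -- a section which is not divisible
    have hM' : ∃ (t r : ℕ) (V : Q2 F), V ∈ E u dd J m G n (-(t : ℤ)) ∧
        ((r : ℤ) - 1) * (m - 3) + 2 * n * j0 < t ∧ ¬ P ^ r ∣ V := by
      unfold Mlt at hM
      push Not at hM
      exact hM
    obtain ⟨t, r, V, hV, htr, hnd⟩ := hM'
    have hV0 : V ≠ 0 := fun h => hnd (h ▸ dvd_zero _)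
    obtain ⟨r0, hr0, hmin⟩ : ∃ r0 : ℕ, ¬ P ^ r0 ∣ V ∧ ∀ s < r0, P ^ s ∣ V := by
      have hex : ∃ s, ¬ P ^ s ∣ V := ⟨r, hnd⟩
      refine ⟨Nat.find hex, Nat.find_spec hex, fun s hs => ?_⟩
      by_contra h
      exact Nat.find_min hex hs h
    have hr0r : r0 ≤ r := by
      by_contra h
      exact hnd (hmin r (by omega))
    have hr01 : 1 ≤ r0 := by
      by_contra h
      have : r0 = 0 := by omega
      rw [this, pow_zero] at hr0
      exact hr0 (one_dvd _)
    obtain ⟨r1, hr1⟩ : ∃ r1, r0 = r1 + 1 := ⟨r0 - 1, by omega⟩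
    obtain ⟨N, hN⟩ := hmin r1 (by omega)
    have hPN : ¬ P ∣ N := by
      rintro ⟨M, hM⟩
      apply hr0
      rw [hr1, hN, hM, pow_succ]
      exact ⟨M, by ring⟩
    have hprod : P ^ r1 * N ≠ 0 := hN ▸ hV0
    have hTV : Tw u dd n (-(t : ℤ)) (P ^ r1 * N) := by
      rw [← hN]
      exact hV.1
    have hTP := (hTWM k F u dd).2.1 w r1 τ P hPt
    obtain ⟨hwn, hTN⟩ := hHFB k F u dd δ j0 c0 J hS n (r1 * w) (-(t : ℤ)) (r1 * τ) (P ^ r1) N
      hprod hTV hTP
    -- the weight of `P`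
    have hw3 : 3 ≤ w := by
      by_contra h
      have h1 := (hPt.1 P.natDegree).2 (by omega)
      have h2 : P ≠ 0 := hPi.ne_zero
      rw [Polynomial.coeff_natDegree, Polynomial.leadingCoeff_eq_zero] at h1
      exact h2 h1
    have hTd : Tw u dd (w - 3) (τ - 3) (Polynomial.derivative P) := by
      apply (hTWM k F u dd).2.2.1
      rw [Nat.sub_add_cancel hw3, sub_add_cancel]
      exact hPt
    have hPd' : ¬ P ∣ Polynomial.derivative P := by
      have hcz : CharZero F := charZero_of_injective_algebraMap (algebraMap k F).injective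
      intro h
      have h1 : Polynomial.derivative P ≠ 0 := by
        intro h2
        rw [Polynomial.derivative_eq_zero] at h2
        omega
      have h2 := Polynomial.natDegree_le_of_dvd h h1
      have h3 := Polynomial.natDegree_derivative_lt (p := P) (by omega)
      omega
    obtain ⟨c1, hc1, hc1'⟩ := hRST k F u dd δ j0 c0 J hS w (n - r1 * w) τ
      (-(t : ℤ) - r1 * τ) P N hPi hPd hPt hTN hPN
    obtain ⟨c2, hc2, hc2'⟩ := hRST k F u dd δ j0 c0 J hS w (w - 3) τ (τ - 3) P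
      (Polynomial.derivative P) hPi hPd hPt hTd hPd'
    obtain ⟨c3, hc3, hc3'⟩ := hVQE k F u dd δ j0 c0 J hS (n - r1 * w) (-(t : ℤ) - r1 * τ) N hTN
    refine ⟨{c1, c2, c3}, by simp, ?_, ?_⟩
    · intro c hc
      rcases hc with rfl | rfl | rfl
      · exact hc1
      · exact hc2
      · exact hc3
    intro K _ _ _ htr1 D hD φ x g S hcrf havd PK hPK hev hdeg hlt
    exfalso
    -- values of first order equations
    have hval : ∀ c : Q2 F, FE u dd c → ∃ W, VQ u φ c W := by
      intro c hc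
      apply (hVLQ k F K u φ).2.2.2.2.2.2 c
      intro j a
      refine ⟨φ ⟨(c.coeff j).coeff a, hc.itg j a⟩, 1, ⟨(c.coeff j).coeff a, hc.itg j a⟩, ?_, ?_, ?_⟩
      · rw [map_one]
        exact one_ne_zero
      · rw [OneMemClass.coe_one, one_mul]
      · rw [map_one, one_mul]
    obtain ⟨NK, hNK⟩ := hc3' K φ D x (fun c hc W hW => havd c (by
      rw [Set.mem_singleton_iff.1 hc]
      simp) W hW)
    have hdPK : VQ u φ (Polynomial.derivative P) (Polynomial.derivative PK) :=
      (hVLQ k F K u φ).2.2.2.1 P PK hPK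
    have hNne : evc D x NK ≠ 0 := by
      intro h
      obtain ⟨cK, hcK⟩ := hval c1 hc1
      exact havd c1 (by simp) cK hcK (hc1' K φ D x PK NK cK hPK hNK hcK hev h)
    have hdne : evc D x (Polynomial.derivative PK) ≠ 0 := by
      intro h
      obtain ⟨cK, hcK⟩ := hval c2 hc2
      exact havd c2 (by simp) cK hcK (hc2' K φ D x PK (Polynomial.derivative PK) cK hPK hdPK hcK
        hev h)
    have hmain := hEVF k F u dd δ j0 c0 J hS m G hm hC K htr1 D hD φ x g S hcrf n t r1 w
      (n - r1 * w) τ (-(t : ℤ) - r1 * τ) V P N PK NK hV hV0 hN hPd hPt hTN hPK hNK hNne hdne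
    -- numbers
    have hm3 : (1 : ℤ) ≤ (m : ℤ) - 3 := by
      have : (4 : ℤ) ≤ m := by exact_mod_cast hm
      linarith
    have hr1r : (r1 : ℤ) ≤ (r : ℤ) - 1 := by
      have : (r1 : ℤ) + 1 ≤ r := by exact_mod_cast (hr1 ▸ hr0r)
      linarith
    have h1 : (r1 : ℤ) * (m - 3) ≤ ((r : ℤ) - 1) * (m - 3) :=
      mul_le_mul_of_nonneg_right hr1r (by linarith)
    have h2 : (1 : ℤ) ≤ (t : ℤ) - 2 * n * j0 - r1 * (m - 3) := by linarith
    have hdegz : (0 : ℤ) < (deg k x : ℤ) := by exact_mod_cast hdeg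
    have h3 : (deg k x : ℤ) ≤ ((t : ℤ) - 2 * n * j0 - r1 * (m - 3)) * deg k x := by
      have := mul_le_mul_of_nonneg_right h2 hdegz.le
      rwa [one_mul] at this
    have h4 : 3 * (r1 : ℤ) ≤ n := by
      have h5 : r1 * 3 ≤ n := (Nat.mul_le_mul_left r1 hw3).trans hwn
      have : ((r1 * 3 : ℕ) : ℤ) ≤ n := by exact_mod_cast h5
      push_cast at this
      linarith
    have h5 : ((n : ℤ) - 3 * r1) * (canDeg D + S.card) ≤
        max 0 ((n : ℤ) * (canDeg D + S.card)) := by
      rcases le_total 0 (canDeg D + (S.card : ℤ)) with h | h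
      · refine (mul_le_mul_of_nonneg_right ?_ h).trans (le_max_right _ _)
        have : (0 : ℤ) ≤ r1 := Int.natCast_nonneg _
        linarith
      · refine le_trans ?_ (le_max_left _ _)
        exact mul_nonpos_of_nonneg_of_nonpos (by linarith) h
    have h6 : max 0 ((n : ℤ) * (canDeg D + S.card)) < deg k x := max_lt hdegz hlt
    linarith

end Pool.Agent.H36.SF
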